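import Mathlib

/-!
# A dichotomy for the Poljak-Rodl function

`polRod n` is the least chromatic number of a categorical product of two finite graphs of
chromatic number `n`.  We show that either `polRod n ≤ 5` for all `n`, or `polRod n` tends to
infinity.
-/

set_option autoImplicit false

namespace Run7.h494

open SimpleGraph

/-- The categorical (tensor) product of two simple graphs. -/
def tprod {V W : Type} (G : SimpleGraph V) (H : SimpleGraph W) : SimpleGraph (V × W) :=
  SimpleGraph.fromRel (fun p q : V × W => G.Adj p.1 q.1 ∧ H.Adj p.2 q.2)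

theorem tprod_adj {V W : Type} (G : SimpleGraph V) (H : SimpleGraph W) (p q : V × W) :
    (tprod G H).Adj p q ↔ G.Adj p.1 q.1 ∧ H.Adj p.2 q.2 := by
  unfold tprod
  rw [SimpleGraph.fromRel_adj]
  constructor
  · rintro ⟨_, h | h⟩
    · exact h
    · exact ⟨h.1.symm, h.2.symm⟩
  · intro h
    refine ⟨?_, Or.inl h⟩
    rintro rfl
    exact h.1.ne rfl

/-- The vertices of the walk graph: walks of length two in `G`. -/
def W2 {V : Type} (G : SimpleGraph V) : Type :=
  {x : V × V × V // G.Adj x.1 x.2.1 ∧ G.Adj x.2.1 x.2.2}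

/-- The walk graph: two walks of length two are adjacent when one is the other one moved a
step forward. -/
def walkGraph {V : Type} (G : SimpleGraph V) : SimpleGraph (W2 G) :=
  SimpleGraph.fromRel (fun x y : W2 G => y.1.1 = x.1.2.1 ∧ y.1.2.1 = x.1.2.2)

theorem walkGraph_adj_of {V : Type} {G : SimpleGraph V} {x y : W2 G}
    (h1 : y.1.1 = x.1.2.1) (h2 : y.1.2.1 = x.1.2.2) : (walkGraph G).Adj x y := by
  unfold walkGraph
  rw [SimpleGraph.fromRel_adj]
  refine ⟨?_, Or.inl ⟨h1, h2⟩⟩
  rintro rfl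
  exact x.2.1.ne h1

/-- If the walk graph has a colouring with `m` colours, then the graph has one with
`2 ^ 2 ^ m` colours. -/
theorem colorable_of_walkGraph {V : Type} (G : SimpleGraph V) (m : ℕ)
    (h : (walkGraph G).Colorable m) : G.Colorable (2 ^ 2 ^ m) := by
  obtain ⟨C⟩ := h
  let S : V → V → Set (Fin m) := fun a b => {k | ∃ x : W2 G, x.1.1 = a ∧ x.1.2.1 = b ∧ C x = k}
  let T : V → Set (Set (Fin m)) := fun a => {s | ∃ b, G.Adj a b ∧ S a b = s}
  have hT : ∀ {a b : V}, G.Adj a b → T a ≠ T b := by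
    intro a b hab hTT
    have h1 : S a b ∈ T a := ⟨b, hab, rfl⟩
    rw [hTT] at h1
    obtain ⟨c, hbc, hS⟩ := h1
    let x : W2 G := ⟨(a, b, c), hab, hbc⟩
    have h2 : C x ∈ S a b := ⟨x, rfl, rfl, rfl⟩
    rw [← hS] at h2
    obtain ⟨y, hy1, hy2, hy3⟩ := h2
    have hadj : (walkGraph G).Adj x y := walkGraph_adj_of hy1 hy2
    exact C.valid hadj hy3.symm
  have hcol := (Coloring.mk T hT).colorable
  simpa using hcol

/-- One step of the colour reduction. -/
theorem reduce {V W : Type} (G : SimpleGraph V) (H : SimpleGraph W) (N : ℕ) (hN : 5 ≤ N)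
    (h : (tprod G H).Colorable (N + 1)) :
    (tprod (walkGraph G) (walkGraph H)).Colorable N := by
  classical
  obtain ⟨C⟩ := h
  have hC : ∀ (a a' : V) (b b' : W), G.Adj a a' → H.Adj b b' →
      (C (a, b)).val ≠ (C (a', b')).val := by
    intro a a' b b' h1 h2 h3
    exact C.valid ((tprod_adj G H (a, b) (a', b')).2 ⟨h1, h2⟩) (Fin.ext h3)
  -- the four values to avoid
  let F : W2 G × W2 H → Finset ℕ := fun p =>
    {(C (p.1.1.1, p.2.1.1)).val, (C (p.1.1.1, p.2.1.2.2)).val,
      (C (p.1.1.2.2, p.2.1.1)).val, (C (p.1.1.2.2, p.2.1.2.2)).val}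
  have hF : ∀ p, ∃ k ∈ Finset.range N, k ∉ F p := by
    intro p
    apply Finset.exists_mem_notMem_of_card_lt_card
    have h4 : (F p).card ≤ 4 := Finset.card_le_four
    rw [Finset.card_range]
    omega
  choose e he1 he2 using hF
  let D : W2 G × W2 H → ℕ := fun p =>
    if (C (p.1.1.2.1, p.2.1.2.1)).val < N then (C (p.1.1.2.1, p.2.1.2.1)).val else e p
  have hD : ∀ p, D p < N := by
    intro p
    simp only [D]
    split_ifs with h
    · exact h
    · exact Finset.mem_range.1 (he1 p)
  -- the key fact for the forward moves in the first coordinate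
  have key : ∀ p q : W2 G × W2 H, q.1.1.1 = p.1.1.2.1 → q.1.1.2.1 = p.1.1.2.2 →
      (walkGraph H).Adj p.2 q.2 → D p ≠ D q := by
    intro p q h1 h2 h3
    have h3' : (q.2.1.1 = p.2.1.2.1 ∧ q.2.1.2.1 = p.2.1.2.2) ∨
        (p.2.1.1 = q.2.1.2.1 ∧ p.2.1.2.1 = q.2.1.2.2) := by
      unfold walkGraph at h3
      rw [SimpleGraph.fromRel_adj] at h3
      exact h3.2
    have hqF : (C (q.1.1.2.1, q.2.1.2.1)).val ∈ F p := by
      rcases h3' with h3' | h3'
      · rw [h2, h3'.2]; simp [F]
      · rw [h2, ← h3'.1]; simp [F]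
    have hpF : (C (p.1.1.2.1, p.2.1.2.1)).val ∈ F q := by
      rcases h3' with h3' | h3'
      · rw [← h1, ← h3'.1]; simp [F]
      · rw [← h1, h3'.2]; simp [F]
    have hH : H.Adj p.2.1.2.1 q.2.1.2.1 := by
      rcases h3' with h3' | h3'
      · rw [h3'.2]; exact p.2.2.2
      · rw [← h3'.1]; exact p.2.2.1.symm
    have hG : G.Adj p.1.1.2.1 q.1.1.2.1 := by
      rw [h2]; exact p.1.2.2
    have hne := hC _ _ _ _ hG hH
    simp only [D]
    split_ifs with ha hb hb
    · exact hne
    · intro hcon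
      rw [hcon] at hpF
      exact he2 q hpF
    · intro hcon
      rw [← hcon] at hqF
      exact he2 p hqF
    · exfalso
      have h5 := (C (p.1.1.2.1, p.2.1.2.1)).isLt
      have h6 := (C (q.1.1.2.1, q.2.1.2.1)).isLt
      omega
  refine ⟨Coloring.mk (fun p => (⟨D p, hD p⟩ : Fin N)) ?_⟩
  intro p q hpq hcon
  have hcon' : D p = D q := by simpa using hcon
  rw [tprod_adj] at hpq
  obtain ⟨hG, hH⟩ := hpq
  have hG' : (q.1.1.1 = p.1.1.2.1 ∧ q.1.1.2.1 = p.1.1.2.2) ∨
      (p.1.1.1 = q.1.1.2.1 ∧ p.1.1.2.1 = q.1.1.2.2) := by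
    have hG2 := hG
    unfold walkGraph at hG2
    rw [SimpleGraph.fromRel_adj] at hG2
    exact hG2.2
  rcases hG' with h | h
  · exact key p q h.1 h.2 hH hcon'
  · exact key q p h.1 h.2 hH.symm hcon'.symm

/-- Two finite graphs of chromatic number at least `n` whose product has a colouring with `k`
colours. -/
def Pair (n k : ℕ) : Prop :=
  ∃ (V W : Type) (_ : Fintype V) (_ : Fintype W) (G : SimpleGraph V) (H : SimpleGraph W),
    (n : ℕ∞) ≤ G.chromaticNumber ∧ (n : ℕ∞) ≤ H.chromaticNumber ∧ (tprod G H).Colorable k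

theorem tprod_colorable_of_hom {V W V' W' : Type} {G : SimpleGraph V} {H : SimpleGraph W}
    {G' : SimpleGraph V'} {H' : SimpleGraph W'} (f : G' →g G) (g : H' →g H) (k : ℕ)
    (h : (tprod G H).Colorable k) : (tprod G' H').Colorable k := by
  refine Colorable.of_hom (G' := tprod G H) ⟨fun p => (f p.1, g p.2), ?_⟩ h
  intro p q hpq
  rw [tprod_adj] at hpq ⊢
  exact ⟨f.map_adj hpq.1, g.map_adj hpq.2⟩

/-- A finite graph of chromatic number at least `n` has an induced subgraph of chromatic number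
exactly `n`. -/
theorem exists_sub {V : Type} [Fintype V] (G : SimpleGraph V) (n : ℕ)
    (hn : (n : ℕ∞) ≤ G.chromaticNumber) :
    ∃ S : Set V, (G.induce S).chromaticNumber = (n : ℕ∞) := by
  classical
  have hk := G.colorable_of_fintype
  obtain ⟨k, hk1⟩ : ∃ k : ℕ, G.chromaticNumber = (k : ℕ∞) := by
    have : G.chromaticNumber ≠ ⊤ := chromaticNumber_ne_top_iff_exists.2 ⟨_, hk⟩
    exact ⟨G.chromaticNumber.toNat, (ENat.natCast_toNat this).symm⟩
  rw [hk1] at hn
  have hnk : n ≤ k := by exact_mod_cast hn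
  have hcol : G.Colorable k := chromaticNumber_le_iff_colorable.1 (le_of_eq hk1)
  obtain ⟨C⟩ := hcol
  refine ⟨{v | (C v).val < n}, ?_⟩
  apply le_antisymm
  · rw [chromaticNumber_le_iff_colorable]
    refine ⟨Coloring.mk (fun v => (⟨(C v.1).val, v.2⟩ : Fin n)) ?_⟩
    intro v w hvw hcon
    have h1 : (C v.1).val = (C w.1).val := by simpa using hcon
    exact C.valid (by simpa using hvw : G.Adj v.1 w.1) (Fin.ext h1)
  · rw [le_chromaticNumber_iff_colorable]
    intro m hm
    by_contra hlt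
    push Not at hlt
    obtain ⟨D⟩ := hm
    have hmn : m < n := by exact_mod_cast hlt
    have hG : G.Colorable (m + (k - n)) := by
      refine ⟨Coloring.mk (fun v => if h : (C v).val < n then
        (⟨(D ⟨v, h⟩).val, by have := (D ⟨v, h⟩).isLt; omega⟩ : Fin (m + (k - n))) else
        ⟨m + ((C v).val - n), by have := (C v).isLt; omega⟩) ?_⟩
      intro v w hvw hcon
      have hval := congrArg Fin.val hcon
      by_cases h1 : (C v).val < n <;> by_cases h2 : (C w).val < n
      · simp only [h1, h2, dif_pos] at hval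
        have hadj : (G.induce {v | (C v).val < n}).Adj ⟨v, h1⟩ ⟨w, h2⟩ := by
          simpa using hvw
        exact D.valid hadj (Fin.ext hval)
      · simp only [h1, h2, dif_pos, dif_neg, not_false_eq_true] at hval
        have := (D ⟨v, h1⟩).isLt
        omega
      · simp only [h1, h2, dif_pos, dif_neg, not_false_eq_true] at hval
        have := (D ⟨w, h2⟩).isLt
        omega
      · simp only [h1, h2, dif_neg, not_false_eq_true] at hval
        exact C.valid hvw (Fin.ext (by omega))
    have h3 := chromaticNumber_le_iff_colorable.2 hG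
    rw [hk1] at h3
    have h4 : k ≤ m + (k - n) := by exact_mod_cast h3
    omega

/-- The Poljak-Rodl function. -/
noncomputable def polRod (n : ℕ) : ℕ :=
  sInf {m : ℕ | ∃ (V W : Type) (_ : Fintype V) (_ : Fintype W)
    (G : SimpleGraph V) (H : SimpleGraph W),
    G.chromaticNumber = (n : ℕ∞) ∧ H.chromaticNumber = (n : ℕ∞) ∧
      (tprod G H).chromaticNumber = (m : ℕ∞)}

theorem exists_nat_chrom {V : Type} [Finite V] (G : SimpleGraph V) :
    ∃ k : ℕ, G.chromaticNumber = (k : ℕ∞) := by
  classical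
  have := Fintype.ofFinite V
  have : G.chromaticNumber ≠ ⊤ := chromaticNumber_ne_top_iff_exists.2 ⟨_, G.colorable_of_fintype⟩
  exact ⟨G.chromaticNumber.toNat, (ENat.natCast_toNat this).symm⟩

theorem polRod_nonempty (n : ℕ) : {m : ℕ | ∃ (V W : Type) (_ : Fintype V) (_ : Fintype W)
    (G : SimpleGraph V) (H : SimpleGraph W),
    G.chromaticNumber = (n : ℕ∞) ∧ H.chromaticNumber = (n : ℕ∞) ∧
      (tprod G H).chromaticNumber = (m : ℕ∞)}.Nonempty := by
  obtain ⟨k, hk⟩ := exists_nat_chrom (tprod (⊤ : SimpleGraph (Fin n)) (⊤ : SimpleGraph (Fin n)))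
  refine ⟨k, Fin n, Fin n, inferInstance, inferInstance, ⊤, ⊤, ?_, ?_, hk⟩ <;>
  · rw [chromaticNumber_top]; simp

theorem polRod_le_iff (n k : ℕ) : polRod n ≤ k ↔ Pair n k := by
  constructor
  · intro h
    obtain ⟨V, W, iV, iW, G, H, h1, h2, h3⟩ := Nat.sInf_mem (polRod_nonempty n)
    refine ⟨V, W, iV, iW, G, H, le_of_eq h1.symm, le_of_eq h2.symm, ?_⟩
    rw [← chromaticNumber_le_iff_colorable, h3]
    exact_mod_cast h
  · rintro ⟨V, W, iV, iW, G, H, h1, h2, h3⟩
    classical
    obtain ⟨S, hS⟩ := exists_sub G n h1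
    obtain ⟨T, hT⟩ := exists_sub H n h2
    have h4 : (tprod (G.induce S) (H.induce T)).Colorable k :=
      tprod_colorable_of_hom (Embedding.induce S).toHom (Embedding.induce T).toHom k h3
    obtain ⟨m, hm⟩ := exists_nat_chrom (tprod (G.induce S) (H.induce T))
    have hmk : m ≤ k := by
      have := chromaticNumber_le_iff_colorable.2 h4
      rw [hm] at this
      exact_mod_cast this
    refine le_trans (Nat.sInf_le ?_) hmk
    exact ⟨S, T, Fintype.ofFinite _, Fintype.ofFinite _, G.induce S, H.induce T, hS, hT, hm⟩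

theorem polRod_mono : Monotone polRod := by
  intro a b hab
  rw [polRod_le_iff]
  obtain ⟨V, W, iV, iW, G, H, h1, h2, h3⟩ := (polRod_le_iff b (polRod b)).1 le_rfl
  have : (a : ℕ∞) ≤ (b : ℕ∞) := by exact_mod_cast hab
  exact ⟨V, W, iV, iW, G, H, this.trans h1, this.trans h2, h3⟩

theorem lt_chrom_walkGraph {V : Type} (G : SimpleGraph V) (m : ℕ)
    (h : ((2 ^ 2 ^ m : ℕ) : ℕ∞) < G.chromaticNumber) :
    (m : ℕ∞) < (walkGraph G).chromaticNumber := by
  by_contra hcon
  push Not at hcon
  have h1 := colorable_of_walkGraph G m (chromaticNumber_le_iff_colorable.1 hcon)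
  have h2 := chromaticNumber_le_iff_colorable.2 h1
  exact absurd h (not_lt.2 h2)

instance {V : Type} [Finite V] (G : SimpleGraph V) : Finite (W2 G) := by
  unfold W2; infer_instance

theorem pair_step (n k : ℕ) (hk : 5 ≤ k) (h : Pair (2 ^ 2 ^ n) (k + 1)) : Pair n k := by
  obtain ⟨V, W, iV, iW, G, H, h1, h2, h3⟩ := h
  refine ⟨W2 G, W2 H, Fintype.ofFinite _, Fintype.ofFinite _, walkGraph G, walkGraph H,
    ?_, ?_, reduce G H k hk h3⟩
  · rcases Nat.eq_zero_or_pos n with rfl | hn
    · simp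
    · have h5 : ((2 ^ 2 ^ (n - 1) : ℕ) : ℕ∞) < G.chromaticNumber := by
        refine lt_of_lt_of_le ?_ h1
        have : 2 ^ 2 ^ (n - 1) < 2 ^ 2 ^ n := by
          apply Nat.pow_lt_pow_right (by norm_num)
          apply Nat.pow_lt_pow_right (by norm_num)
          omega
        exact_mod_cast this
      have h6 := lt_chrom_walkGraph G (n - 1) h5
      have h7 := Order.add_one_le_of_lt h6
      have h8 : ((n - 1 : ℕ) : ℕ∞) + 1 = (n : ℕ∞) := by
        exact_mod_cast (Nat.sub_add_cancel hn)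
      rw [h8] at h7
      exact h7
  · rcases Nat.eq_zero_or_pos n with rfl | hn
    · simp
    · have h5 : ((2 ^ 2 ^ (n - 1) : ℕ) : ℕ∞) < H.chromaticNumber := by
        refine lt_of_lt_of_le ?_ h2
        have : 2 ^ 2 ^ (n - 1) < 2 ^ 2 ^ n := by
          apply Nat.pow_lt_pow_right (by norm_num)
          apply Nat.pow_lt_pow_right (by norm_num)
          omega
        exact_mod_cast this
      have h6 := lt_chrom_walkGraph H (n - 1) h5
      have h7 := Order.add_one_le_of_lt h6
      have h8 : ((n - 1 : ℕ) : ℕ∞) + 1 = (n : ℕ∞) := by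
        exact_mod_cast (Nat.sub_add_cancel hn)
      rw [h8] at h7
      exact h7

theorem polRod_step (n k : ℕ) (hk : 5 ≤ k) (h : k < polRod n) :
    k + 1 < polRod (2 ^ 2 ^ n) := by
  by_contra hcon
  push Not at hcon
  have h1 := (polRod_le_iff _ _).1 hcon
  have h2 := (polRod_le_iff _ _).2 (pair_step n k hk h1)
  omega

theorem dichotomy : (∀ n, polRod n ≤ 5) ∨
    Filter.Tendsto polRod Filter.atTop Filter.atTop := by
  by_cases h : ∀ n, polRod n ≤ 5
  · exact Or.inl h
  · right
    push Not at h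
    obtain ⟨n₀, hn₀⟩ := h
    have key : ∀ k, ∃ n, k + 5 < polRod n := by
      intro k
      induction k with
      | zero => exact ⟨n₀, by omega⟩
      | succ k ih =>
        obtain ⟨n, hn⟩ := ih
        refine ⟨2 ^ 2 ^ n, ?_⟩
        have := polRod_step n (k + 5) (by omega) hn
        omega
    apply Filter.tendsto_atTop_atTop_of_monotone polRod_mono
    intro b
    obtain ⟨n, hn⟩ := key b
    exact ⟨n, by omega⟩

end Run7.h494
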