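import Pool.Agent.Run7.h494.F5Data

/-!
# A finite colouring problem, part 2: the checker and its soundness
-/

set_option autoImplicit false

namespace Run7.h494.Fin5

/-! ### The checker -/

/-- the adjacency row of a vertex -/
def row (v : Nat) : Nat := (ROWS >>> (272 * v)) % 2 ^ 272

/-- the bits removed when `v` gets the colour `k` -/
def rem (v k : Nat) : Nat :=
  (row v <<< (272 * k)) ||| ((R0 <<< v) ^^^ (1 <<< (272 * k + v)))

/-- give colour `k` to the vertex `v` -/
def assign (S v k : Nat) : Nat := S ^^^ (S &&& rem v k)

/-- remove one bit -/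
def cutBit (S n : Nat) : Nat := S ^^^ (S &&& (1 <<< n))

/-- first literal of a clause -/
def lit1 (j : Nat) : Nat :=
  match j with
  | 0 => 288
  | 1 => 576
  | 2 => 864
  | 3 => 645
  | 4 => 933
  | _ => 1002

/-- second literal of a clause -/
def lit2 (j : Nat) : Nat :=
  match j with
  | 0 => 69
  | 1 => 138
  | 2 => 207
  | 3 => 426
  | 4 => 495
  | _ => 783

/-- one step on the top state -/
def stepTop (S v k op : Nat) : Option (List Nat) :=
  match op with
  | 0 => if Nat.beq (S &&& (R0 <<< v)) 0 then some [] else none
  | 1 => if Nat.beq (S &&& ((R0 <<< v) ^^^ (1 <<< (272 * k + v)))) 0 then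
      some [assign S v k] else none
  | 2 => some [assign S v k, cutBit S (272 * k + v)]
  | _ => some [cutBit S (lit1 v), cutBit S (lit2 v)]

/-- one step of the stack machine -/
def step (st : Option (List Nat)) (tok : Nat) : Option (List Nat) :=
  match st with
  | none => none
  | some [] => none
  | some (S :: rest) =>
    if Nat.blt (tok / 32) 272 then
      match stepTop S (tok / 32) (tok / 4 % 8) (tok % 4) with
      | none => none
      | some l => some (l ++ rest)
    else none

/-- run a list of tokens -/
def run (st : Option (List Nat)) (ts : List Nat) : Option (List Nat) := ts.foldl step st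

set_option maxRecDepth 100000 in
theorem run_toks : toks.foldl run (some [S0]) = some [] := by decide +kernel

/-! ### The relation -/

/-- inequality test -/
def nq (a b : Nat) : Bool := !(Nat.beq a b)

def outB (a e a' e' : Nat) : Bool := nq a a' && (nq e e' && (nq a e' || nq e a'))

def nin (x a e : Nat) : Bool := nq x a && nq x e

def relTT (a e x y a' e' x' y' : Nat) : Bool :=
  outB a e a' e' && (nq x y' && (nq y x' && ((nin y' a e && nin x' a e) ||
    (nin x a' e' && nin y a' e'))))

def relIT (a e a' e' x' y' : Nat) : Bool :=
  outB a e a' e' && (nin x' a e && nin y' a e)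

def relB (u v : Nat) : Bool :=
  match Nat.blt u 256, Nat.blt v 256 with
  | true, true => relTT (u / 64 % 4) (u / 16 % 4) (u / 4 % 4) (u % 4)
      (v / 64 % 4) (v / 16 % 4) (v / 4 % 4) (v % 4)
  | false, true => relIT (u / 4 % 4) (u % 4)
      (v / 64 % 4) (v / 16 % 4) (v / 4 % 4) (v % 4)
  | true, false => relIT (v / 4 % 4) (v % 4)
      (u / 64 % 4) (u / 16 % 4) (u / 4 % 4) (u % 4)
  | false, false => outB (u / 4 % 4) (u % 4) (v / 4 % 4) (v % 4)

def rowOk (v : Nat) : Bool :=
  (List.range 272).all fun u => !((row v).testBit u) || relB u v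

theorem rows_ok : ((List.range 272).all fun v => rowOk v) = true := by decide +kernel

theorem row_rel {u v : Nat} (hu : u < 272) (hv : v < 272) (h : (row v).testBit u = true) :
    relB u v = true := by
  have h1 := rows_ok
  rw [List.all_eq_true] at h1
  have h2 := h1 v (List.mem_range.2 hv)
  unfold rowOk at h2
  rw [List.all_eq_true] at h2
  have h3 := h2 u (List.mem_range.2 hu)
  rw [h] at h3
  simpa using h3

theorem row_lt (v : Nat) : row v < 2 ^ 272 := Nat.mod_lt _ (Nat.pow_pos Nat.two_pos)

theorem R0_bits : ((List.range 1360).all fun n => (R0.testBit n) == Nat.beq (n % 272) 0) = true := by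
  decide +kernel

theorem R0_bit {n : Nat} (h : n < 1360) : R0.testBit n = Nat.beq (n % 272) 0 := by
  have h1 := R0_bits
  rw [List.all_eq_true] at h1
  have h2 := h1 n (List.mem_range.2 h)
  simpa using h2

/-! ### Soundness -/

/-- the colouring `f` is compatible with the state `S` -/
def ok (S : Nat) (f : Nat → Nat) : Prop := ∀ v, v < 272 → S.testBit (272 * f v + v) = true

/-- colourings of the finite problem -/
structure Good (f : Nat → Nat) : Prop where
  lt : ∀ v, f v < 5
  adj : ∀ u v, u < 272 → v < 272 → relB u v = true → f u ≠ f v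
  cl : ∀ j, ¬ ((∃ v, v < 272 ∧ 272 * f v + v = lit1 j) ∧ (∃ v, v < 272 ∧ 272 * f v + v = lit2 j))

theorem testBit_diff (S X i : Nat) :
    (S ^^^ (S &&& X)).testBit i = (S.testBit i && !(X.testBit i)) := by
  rw [Nat.testBit_xor, Nat.testBit_and]
  cases S.testBit i <;> cases X.testBit i <;> rfl

theorem R0_shift {v u k : Nat} (hu : u < 272) (hv : v < 272) (hk : k < 5) :
    (R0 <<< v).testBit (272 * k + u) = decide (u = v) := by
  rw [Nat.testBit_shiftLeft]
  by_cases h : v ≤ 272 * k + u
  · rw [R0_bit (by omega)]
    have h1 : decide (272 * k + u ≥ v) = true := by simpa using h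
    rw [h1, Bool.true_and]
    by_cases h2 : u = v
    · subst h2
      have : (272 * k + u - u) % 272 = 0 := by omega
      rw [this]
      simp
    · have h3 : (272 * k + u - v) % 272 ≠ 0 := by omega
      have h4 : Nat.beq ((272 * k + u - v) % 272) 0 = false := by
        cases hb : Nat.beq ((272 * k + u - v) % 272) 0
        · rfl
        · exact absurd (Nat.eq_of_beq_eq_true hb) h3
      rw [h4]
      simp [h2]
  · have h1 : decide (272 * k + u ≥ v) = false := by simpa using h
    rw [h1, Bool.false_and]
    have h2 : u ≠ v := by omega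
    simp [h2]

theorem one_shift (n i : Nat) : (1 <<< n).testBit i = decide (i = n) := by
  rw [Nat.one_shiftLeft, Nat.testBit_two_pow]
  simp [eq_comm]

theorem ok_assign {S : Nat} {f : Nat → Nat} (hf : Good f) (h : ok S f) {v k : Nat} (hv : v < 272)
    (hk : f v = k) : ok (assign S v k) f := by
  intro u hu
  unfold assign
  rw [testBit_diff, h u hu, Bool.true_and, Bool.not_eq_true']
  unfold rem
  rw [Nat.testBit_or, Nat.testBit_xor, one_shift, R0_shift hu hv (hf.lt u)]
  have h1 : (row v <<< (272 * k)).testBit (272 * f u + u) = false := by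
    rw [Nat.testBit_shiftLeft]
    by_contra hcon
    rw [Bool.not_eq_false, Bool.and_eq_true] at hcon
    obtain ⟨h2, h3⟩ := hcon
    have h2' : 272 * k ≤ 272 * f u + u := by simpa using h2
    have h4 : 272 * f u + u - 272 * k < 272 := by
      by_contra hge
      push Not at hge
      have h5 : row v < 2 ^ (272 * f u + u - 272 * k) :=
        lt_of_lt_of_le (row_lt v) (Nat.pow_le_pow_right Nat.two_pos hge)
      rw [Nat.testBit_lt_two_pow h5] at h3
      exact Bool.false_ne_true h3
    have h5 : f u = k := by omega
    have h6 : 272 * f u + u - 272 * k = u := by omega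
    rw [h6] at h3
    exact hf.adj u v hu hv (row_rel hu hv h3) (h5.trans hk.symm)
  rw [h1, Bool.false_or]
  by_cases h2 : u = v
  · subst h2
    simp [hk]
  · have h3 : ¬ (272 * f u + u = 272 * k + v) := by omega
    simp [h2, h3]

theorem ok_cut {S : Nat} {f : Nat → Nat} (h : ok S f) {n : Nat}
    (hn : ¬ ∃ v, v < 272 ∧ 272 * f v + v = n) : ok (cutBit S n) f := by
  intro u hu
  unfold cutBit
  rw [testBit_diff, h u hu, Bool.true_and, Bool.not_eq_true', one_shift]
  have : ¬ (272 * f u + u = n) := fun hc => hn ⟨u, hu, hc⟩
  simp [this]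

theorem stepTop_sound {S v k op : Nat} {l : List Nat} (hv : v < 272)
    (hs : stepTop S v k op = some l) {f : Nat → Nat} (hf : Good f) (h : ok S f) :
    ∃ T ∈ l, ok T f := by
  unfold stepTop at hs
  split at hs
  · -- fail
    split_ifs at hs with hb
    exfalso
    have hb' := Nat.eq_of_beq_eq_true hb
    have h1 : (S &&& (R0 <<< v)).testBit (272 * f v + v) = true := by
      rw [Nat.testBit_and, h v hv, R0_shift hv hv (hf.lt v)]
      simp
    rw [hb'] at h1
    simp at h1
  · -- unit
    split_ifs at hs with hb
    simp only [Option.some.injEq] at hs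
    subst hs
    refine ⟨_, List.mem_singleton.2 rfl, ok_assign hf h hv ?_⟩
    have hb' := Nat.eq_of_beq_eq_true hb
    by_contra hne
    have h1 : (S &&& ((R0 <<< v) ^^^ (1 <<< (272 * k + v)))).testBit (272 * f v + v) = true := by
      rw [Nat.testBit_and, h v hv, Nat.testBit_xor, R0_shift hv hv (hf.lt v), one_shift]
      simp [hne]
    rw [hb'] at h1
    simp at h1
  · -- cut
    simp only [Option.some.injEq] at hs
    subst hs
    by_cases hk : f v = k
    · exact ⟨_, List.mem_cons_self, ok_assign hf h hv hk⟩
    · refine ⟨_, List.mem_cons_of_mem _ (List.mem_singleton.2 rfl), ok_cut h ?_⟩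
      rintro ⟨u, hu, hu'⟩
      have h1 : u = v := by omega
      subst h1
      omega
  · simp only [Option.some.injEq] at hs
    subst hs
    by_cases h1 : ∃ u, u < 272 ∧ 272 * f u + u = lit1 v
    · refine ⟨_, List.mem_cons_of_mem _ (List.mem_singleton.2 rfl), ok_cut h ?_⟩
      intro h2
      exact hf.cl v ⟨h1, h2⟩
    · exact ⟨_, List.mem_cons_self, ok_cut h h1⟩

theorem step_sound {st st' : List Nat} {tok : Nat} (hs : step (some st) tok = some st')
    {f : Nat → Nat} (hf : Good f) (h : ∃ S ∈ st, ok S f) : ∃ S ∈ st', ok S f := by
  cases st with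
  | nil => simp [step] at hs
  | cons S rest =>
    simp only [step] at hs
    split_ifs at hs with hv
    have hv' : tok / 32 < 272 := by
      simpa [Nat.blt_eq] using hv
    split at hs
    · simp at hs
    · rename_i l hl
      simp only [Option.some.injEq] at hs
      subst hs
      obtain ⟨T, hT, hTf⟩ := h
      rcases List.mem_cons.1 hT with rfl | hT
      · obtain ⟨U, hU, hUf⟩ := stepTop_sound hv' hl hf hTf
        exact ⟨U, List.mem_append_left _ hU, hUf⟩
      · exact ⟨T, List.mem_append_right _ hT, hTf⟩

theorem foldl_step_none (ts : List Nat) : ts.foldl step none = none := by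
  induction ts with
  | nil => rfl
  | cons t ts ih => simpa [step] using ih

theorem run_sound (ts : List Nat) : ∀ {st st' : List Nat}, run (some st) ts = some st' →
    ∀ {f : Nat → Nat}, Good f → (∃ S ∈ st, ok S f) → ∃ S ∈ st', ok S f := by
  induction ts with
  | nil =>
    intro st st' h f hf hS
    simp only [run, List.foldl_nil, Option.some.injEq] at h
    subst h
    exact hS
  | cons t ts ih =>
    intro st st' h f hf hS
    simp only [run, List.foldl_cons] at h
    cases hs : step (some st) t with
    | none =>
      rw [hs, foldl_step_none] at h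
      exact absurd h (by simp)
    | some st1 =>
      rw [hs] at h
      exact ih h hf (step_sound hs hf hS)

theorem foldl_run_none (L : List (List Nat)) : L.foldl run none = none := by
  induction L with
  | nil => rfl
  | cons t ts ih =>
    simp only [List.foldl_cons, run, foldl_step_none]
    exact ih

theorem runs_sound (L : List (List Nat)) : ∀ {st st' : List Nat},
    L.foldl run (some st) = some st' →
    ∀ {f : Nat → Nat}, Good f → (∃ S ∈ st, ok S f) → ∃ S ∈ st', ok S f := by
  induction L with
  | nil =>
    intro st st' h f hf hS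
    simp only [List.foldl_nil, Option.some.injEq] at h
    subst h
    exact hS
  | cons t ts ih =>
    intro st st' h f hf hS
    simp only [List.foldl_cons] at h
    cases hs : run (some st) t with
    | none =>
      rw [hs, foldl_run_none] at h
      exact absurd h (by simp)
    | some st1 =>
      rw [hs] at h
      exact ih h hf (run_sound t hs hf hS)

/-- No colouring of the finite problem is compatible with the start state. -/
theorem no_good {f : Nat → Nat} (hf : Good f) : ¬ ok S0 f := by
  intro h
  obtain ⟨S, hS, _⟩ := runs_sound toks run_toks hf ⟨S0, List.mem_singleton.2 rfl, h⟩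
  simp at hS

end Run7.h494.Fin5
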