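import Pool.Agent.Run7.h494.Pieces

/-!
# From local patterns to exponential graphs
-/

set_option autoImplicit false

namespace Run7.h494

open SimpleGraph

/-- compatibility of the outer letters -/
def Out {c : ℕ} (a e a' e' : Fin c) : Prop := a ≠ a' ∧ e ≠ e' ∧ (a ≠ e' ∨ e ≠ a')

/-- the finite colouring problem with `c` letters and `d` colours -/
structure Proper {c d : ℕ} (t : Fin c → Fin c → Fin c → Fin c → Fin d)
    (iv : Fin c → Fin c → Fin d) : Prop where
  tt : ∀ a e x y a' e' x' y', Out a e a' e' → x ≠ y' → y ≠ x' →
    ((y' ≠ a ∧ y' ≠ e ∧ x' ≠ a ∧ x' ≠ e) ∨ (x ≠ a' ∧ x ≠ e' ∧ y ≠ a' ∧ y ≠ e')) →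
    t a e x y ≠ t a' e' x' y'
  it : ∀ a e a' e' x' y', Out a e a' e' → x' ≠ a → x' ≠ e → y' ≠ a → y' ≠ e →
    iv a e ≠ t a' e' x' y'
  ii : ∀ a e a' e', Out a e a' e' → iv a e ≠ iv a' e'

/-- There is a property of the colours of the functions `inv i` which holds at stage `0`, fails at
the last stage, and is inherited from each stage to the next one. -/
def Preserved (c d : ℕ) : Prop :=
  ∃ Q : (Fin c → Fin d) → (Fin c → Fin c → Fin d) → Prop,
    (∀ κ, Function.Injective κ → Q κ (fun _ b => κ b)) ∧
    (∀ κ, Function.Injective κ → ¬ Q κ (fun a _ => κ a)) ∧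
    (∀ t iv, Proper t iv → Q (fun a => t a a a a) iv →
      Q (fun a => t a a a a) (fun a b => t a b a a))

theorem exp_not_colorable {c d : ℕ} (hP : Preserved c d) (s : ℕ) :
    ∃ M : ℕ, ∀ (V : Type) (G : SimpleGraph V), Pieces G s M → ¬ G.Colorable c →
      ¬ (expG G c).Colorable d := by
  obtain ⟨Q, hQ0, hQ1, hQ2⟩ := hP
  obtain ⟨M, hM⟩ := exists_box s ((Fin s → Fin c → Fin c → Fin c → Fin c → Fin d) ×
    (Fin s → Fin c → Fin c → Fin d))
  refine ⟨M, fun V G S hG hcol => ?_⟩
  obtain ⟨C⟩ := hcol
  have C : (expG G c).Coloring (Fin d) := C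
  obtain ⟨lo, hi, hlh, hhM, hbox⟩ := hM (fun r =>
    (fun i a e x y => C (S.tf i a e x y r), fun i a e => C (S.inv i.val a e r)))
  have hloM : ∀ j, lo j ≤ M := fun j => (hlh j).le.trans (hhM j)
  -- the two vectors
  have hbM : ∀ (z : Fin s → Bool) (j : Fin s), (if z j = true then hi j else lo j) ≤ M := by
    intro z j
    split_ifs
    · exact hhM j
    · exact hloM j
  have htf : ∀ (z : Fin s → Bool) (i : Fin s) (a e x y : Fin c),
      C (S.tf i a e x y (fun j => if z j = true then hi j else lo j)) = C (S.tf i a e x y lo) := by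
    intro z i a e x y
    have h1 := congrArg Prod.fst (hbox z)
    exact congrFun (congrFun (congrFun (congrFun (congrFun h1 i) a) e) x) y
  have hinv : ∀ (z : Fin s → Bool) (i : Fin s) (a e : Fin c),
      C (S.inv i.val a e (fun j => if z j = true then hi j else lo j)) =
        C (S.inv i.val a e lo) := by
    intro z i a e
    have h1 := congrArg Prod.snd (hbox z)
    exact congrFun (congrFun (congrFun h1 i) a) e
  -- comparison of the two vectors
  have hcmp1 : ∀ (p q : Bool) (i j : Fin s), j.val < i.val → p = true →
      (if (if j.val < i.val then !p else !q) = true then hi j else lo j) <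
      (if (if j.val < i.val then p else q) = true then hi j else lo j) := by
    intro p q i j hj hp
    subst hp
    simpa [hj] using hlh j
  have hcmp2 : ∀ (p q : Bool) (i j : Fin s), j.val < i.val → p = false →
      (if (if j.val < i.val then p else q) = true then hi j else lo j) <
      (if (if j.val < i.val then !p else !q) = true then hi j else lo j) := by
    intro p q i j hj hp
    subst hp
    simpa [hj] using hlh j
  have hcmp3 : ∀ (p q : Bool) (i : Fin s), q = true →
      (if (if i.val < i.val then !p else !q) = true then hi i else lo i) <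
      (if (if i.val < i.val then p else q) = true then hi i else lo i) := by
    intro p q i hq
    subst hq
    simpa using hlh i
  have hcmp4 : ∀ (p q : Bool) (i : Fin s), q = false →
      (if (if i.val < i.val then p else q) = true then hi i else lo i) <
      (if (if i.val < i.val then !p else !q) = true then hi i else lo i) := by
    intro p q i hq
    subst hq
    simpa using hlh i
  have houter : ∀ (a e a' e' : Fin c) (i : Fin s), (a ≠ e' ∨ e ≠ a') → ∃ p : Bool, ∀ q : Bool,
      ((∀ j : Fin s, j.val < i.val →
        (if (if j.val < i.val then !p else !q) = true then hi j else lo j) <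
        (if (if j.val < i.val then p else q) = true then hi j else lo j)) ∧ e ≠ a') ∨
      ((∀ j : Fin s, j.val < i.val →
        (if (if j.val < i.val then p else q) = true then hi j else lo j) <
        (if (if j.val < i.val then !p else !q) = true then hi j else lo j)) ∧ a ≠ e') := by
    intro a e a' e' i h
    rcases h with h | h
    · exact ⟨false, fun q => Or.inr ⟨fun j hj => hcmp2 false q i j hj rfl, h⟩⟩
    · exact ⟨true, fun q => Or.inl ⟨fun j hj => hcmp1 true q i j hj rfl, h⟩⟩
  -- properness at every stage
  have hproper : ∀ i : Fin s, Proper (fun a e x y => C (S.tf i a e x y lo))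
      (fun a e => C (S.inv i.val a e lo)) := by
    intro i
    refine ⟨?_, ?_, ?_⟩
    · intro a e x y a' e' x' y' ho hxy hyx hin
      obtain ⟨haa, hee, hor⟩ := ho
      obtain ⟨p, hp⟩ := houter a e a' e' i hor
      obtain ⟨q, hq⟩ : ∃ q : Bool,
          ((if (if i.val < i.val then !p else !q) = true then hi i else lo i) <
            (if (if i.val < i.val then p else q) = true then hi i else lo i) ∧
            (y' ≠ a ∧ y' ≠ e ∧ x' ≠ a ∧ x' ≠ e)) ∨
          ((if (if i.val < i.val then p else q) = true then hi i else lo i) <
            (if (if i.val < i.val then !p else !q) = true then hi i else lo i) ∧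
            (x ≠ a' ∧ x ≠ e' ∧ y ≠ a' ∧ y ≠ e')) := by
        rcases hin with hin | hin
        · exact ⟨true, Or.inl ⟨hcmp3 p true i rfl, hin⟩⟩
        · exact ⟨false, Or.inr ⟨hcmp4 p false i rfl, hin⟩⟩
      have h1 := htf (fun j => if j.val < i.val then !p else !q) i a e x y
      have h2 := htf (fun j => if j.val < i.val then p else q) i a' e' x' y'
      change C (S.tf i a e x y lo) ≠ C (S.tf i a' e' x' y' lo)
      rw [← h1, ← h2]
      apply exp_ne hG C
      intro u v huv
      exact S.tf_tf (hbM _) (hbM _) haa hee (hp q) hxy hyx hq huv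
    · intro a e a' e' x' y' ho hx1 hx2 hy1 hy2
      obtain ⟨haa, hee, hor⟩ := ho
      obtain ⟨p, hp⟩ := houter a e a' e' i hor
      have h1 := hinv (fun j => if j.val < i.val then !p else !true) i a e
      have h2 := htf (fun j => if j.val < i.val then p else true) i a' e' x' y'
      change C (S.inv i.val a e lo) ≠ C (S.tf i a' e' x' y' lo)
      rw [← h1, ← h2]
      apply exp_ne hG C
      intro u v huv
      exact S.inv_tf (hbM _) (hbM _) haa hee (hp true) hx1 hx2 hy1 hy2 huv
    · intro a e a' e' ho
      obtain ⟨haa, hee, hor⟩ := ho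
      obtain ⟨p, hp⟩ := houter a e a' e' i hor
      have h1 := hinv (fun j => if j.val < i.val then !p else !true) i a e
      have h2 := hinv (fun j => if j.val < i.val then p else true) i a' e'
      change C (S.inv i.val a e lo) ≠ C (S.inv i.val a' e' lo)
      rw [← h1, ← h2]
      apply exp_ne hG C
      intro u v huv
      exact S.outer_ok (hbM _) (hbM _) haa hee (hp true) huv
  -- the constants
  have hκ : Function.Injective (fun a : Fin c => C (fun _ => a)) := by
    intro a b hab
    by_contra hne
    exact exp_ne hG C (fun u v _ => hne) hab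
  have hconst : ∀ i : Fin s, (fun a => C (S.tf i a a a a lo)) = fun a => C (fun _ => a) := by
    intro i
    funext a
    rw [S.tf_const]
  -- the chain
  have hchain : ∀ i : ℕ, i ≤ s → Q (fun a => C (fun _ => a)) (fun a b => C (S.inv i a b lo)) := by
    intro i
    induction i with
    | zero =>
      intro _
      have : (fun a b => C (S.inv 0 a b lo)) = fun _ b => C (fun _ => b) := by
        funext a b
        rw [S.inv_zero]
      rw [this]
      exact hQ0 _ hκ
    | succ i ih =>
      intro hi'
      have h1 := ih (by omega)
      have h2 := hQ2 _ _ (hproper ⟨i, hi'⟩)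
      simp only [hconst] at h2
      have h3 := h2 h1
      have h4 : (fun a b => C (S.inv (i + 1) a b lo)) =
          fun a b => C (S.tf ⟨i, hi'⟩ a b a a lo) := by
        funext a b
        exact congrArg C (S.inv_succ ⟨i, hi'⟩ a b lo)
      rw [h4]
      exact h3
  have hlast := hchain s le_rfl
  have : (fun a b => C (S.inv s a b lo)) = fun a _ => C (fun _ => a) := by
    funext a b
    rw [S.inv_last a b lo hloM]
  rw [this] at hlast
  exact hQ1 _ hκ hlast

end Run7.h494
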