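import Pool.Agent.Run7.h494.F5Check
import Pool.Agent.Run7.h494.Local

/-!
# A finite colouring problem, part 3: the local lemma
-/

set_option autoImplicit false

namespace Run7.h494.Fin5

/-- letter of a number -/
def q (n : Nat) : Fin 4 := ⟨n % 4, Nat.mod_lt _ (by decide)⟩

/-- the colouring of the vertices -/
def code (t : Fin 4 → Fin 4 → Fin 4 → Fin 4 → Fin 5) (iv : Fin 4 → Fin 4 → Fin 5) (n : Nat) :
    Nat :=
  if Nat.blt n 256 then (t (q (n / 64)) (q (n / 16)) (q (n / 4)) (q n)).val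
  else (iv (q (n / 4)) (q n)).val

theorem nq_ne {a b : Nat} (h : nq (a % 4) (b % 4) = true) : q a ≠ q b := by
  unfold nq at h
  intro hcon
  have h1 : a % 4 = b % 4 := congrArg Fin.val hcon
  rw [h1] at h
  have h2 : Nat.beq (b % 4) (b % 4) = true := Nat.beq_refl _
  rw [h2] at h
  simp at h

theorem outB_out {a e a' e' : Nat} (h : outB (a % 4) (e % 4) (a' % 4) (e' % 4) = true) :
    Out (q a) (q e) (q a') (q e') := by
  unfold outB at h
  rw [Bool.and_eq_true, Bool.and_eq_true, Bool.or_eq_true] at h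
  exact ⟨nq_ne h.1, nq_ne h.2.1, h.2.2.imp nq_ne nq_ne⟩

theorem nin_ne {x a e : Nat} (h : nin (x % 4) (a % 4) (e % 4) = true) :
    q x ≠ q a ∧ q x ≠ q e := by
  unfold nin at h
  rw [Bool.and_eq_true] at h
  exact ⟨nq_ne h.1, nq_ne h.2⟩

theorem code_adj {t : Fin 4 → Fin 4 → Fin 4 → Fin 4 → Fin 5} {iv : Fin 4 → Fin 4 → Fin 5}
    (hp : Proper t iv) {u v : Nat} (h : relB u v = true) : code t iv u ≠ code t iv v := by
  unfold relB at h
  unfold code
  split at h
  · rename_i hu hv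
    rw [hu, hv, if_pos rfl, if_pos rfl]
    unfold relTT at h
    rw [Bool.and_eq_true, Bool.and_eq_true, Bool.and_eq_true, Bool.or_eq_true,
      Bool.and_eq_true, Bool.and_eq_true] at h
    obtain ⟨h1, h2, h3, h4⟩ := h
    intro hcon
    refine hp.tt _ _ _ _ _ _ _ _ (outB_out h1) (nq_ne h2) (nq_ne h3) ?_ (Fin.ext hcon)
    rcases h4 with h4 | h4
    · left
      exact ⟨(nin_ne h4.1).1, (nin_ne h4.1).2, (nin_ne h4.2).1, (nin_ne h4.2).2⟩
    · right
      exact ⟨(nin_ne h4.1).1, (nin_ne h4.1).2, (nin_ne h4.2).1, (nin_ne h4.2).2⟩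
  · rename_i hu hv
    rw [hu, hv, if_neg (by decide), if_pos rfl]
    unfold relIT at h
    rw [Bool.and_eq_true, Bool.and_eq_true] at h
    obtain ⟨h1, h2, h3⟩ := h
    intro hcon
    exact hp.it _ _ _ _ _ _ (outB_out h1) (nin_ne h2).1 (nin_ne h2).2 (nin_ne h3).1
      (nin_ne h3).2 (Fin.ext hcon)
  · rename_i hu hv
    rw [hu, hv, if_pos rfl, if_neg (by decide)]
    unfold relIT at h
    rw [Bool.and_eq_true, Bool.and_eq_true] at h
    obtain ⟨h1, h2, h3⟩ := h
    intro hcon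
    exact hp.it _ _ _ _ _ _ (outB_out h1) (nin_ne h2).1 (nin_ne h2).2 (nin_ne h3).1
      (nin_ne h3).2 (Fin.ext hcon.symm)
  · rename_i hu hv
    rw [hu, hv, if_neg (by decide), if_neg (by decide)]
    intro hcon
    exact hp.ii _ _ _ _ (outB_out h) (Fin.ext hcon)

/-- the vertices whose colour is prescribed -/
def bad (v k : Nat) : Bool :=
  (Nat.beq v 0 && nq k 0) || ((Nat.beq v 85 && nq k 1) || ((Nat.beq v 170 && nq k 2) ||
    ((Nat.beq v 255 && nq k 3) || ((Nat.beq v 257 && nq k 1) || (Nat.beq v 260 && nq k 0)))))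

theorem S0_bits : ((List.range 5).all fun k => (List.range 272).all fun v =>
    S0.testBit (272 * k + v) || bad v k) = true := by decide +kernel

theorem S0_ok {f : Nat → Nat} (h5 : ∀ v, f v < 5) (h0 : f 0 = 0) (h1 : f 85 = 1)
    (h2 : f 170 = 2) (h3 : f 255 = 3) (h4 : f 257 = 1) (h6 : f 260 = 0) : ok S0 f := by
  intro v hv
  have hb := S0_bits
  rw [List.all_eq_true] at hb
  have hb1 := hb (f v) (List.mem_range.2 (h5 v))
  rw [List.all_eq_true] at hb1
  have hb2 := hb1 v (List.mem_range.2 hv)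
  rw [Bool.or_eq_true] at hb2
  rcases hb2 with hb2 | hb2
  · exact hb2
  · exfalso
    unfold bad at hb2
    simp only [Bool.or_eq_true, Bool.and_eq_true] at hb2
    have aux : ∀ w k, f w = k → ¬ (Nat.beq v w = true ∧ nq (f v) k = true) := by
      rintro w k hk ⟨ha, hb⟩
      have ha' := Nat.eq_of_beq_eq_true ha
      subst ha'
      unfold nq at hb
      rw [hk, Nat.beq_refl] at hb
      simp at hb
    rcases hb2 with h | h | h | h | h | h
    · exact aux _ _ h0 h
    · exact aux _ _ h1 h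
    · exact aux _ _ h2 h
    · exact aux _ _ h3 h
    · exact aux _ _ h4 h
    · exact aux _ _ h6 h

/-- The local lemma in the normalised case. -/
theorem local_norm (t : Fin 4 → Fin 4 → Fin 4 → Fin 4 → Fin 5) (iv : Fin 4 → Fin 4 → Fin 5)
    (hp : Proper t iv) (hc : ∀ a, t a a a a = a.castSucc)
    (h01 : iv 0 1 = 1) (h10 : iv 1 0 = 0) :
    ∃ a b : Fin 4, a ≠ b ∧ t a b a a = b.castSucc ∧ t b a b b = a.castSucc := by
  by_contra hcon
  push Not at hcon
  have hcl : ∀ a b : Fin 4, a ≠ b → ¬ (t a b a a = b.castSucc ∧ t b a b b = a.castSucc) := by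
    intro a b hab h
    exact hcon a b hab h.1 h.2
  have hlt : ∀ v, code t iv v < 5 := by
    intro v
    unfold code
    split_ifs
    · exact (t _ _ _ _).isLt
    · exact (iv _ _).isLt
  have hg : Good (code t iv) := by
    refine ⟨hlt, fun u v _ _ h => code_adj hp h, ?_⟩
    rintro j ⟨⟨u, hu, hu'⟩, ⟨v, hv, hv'⟩⟩
    have key : ∀ (a b : Fin 4) (m n : Nat), a ≠ b → m < 272 → n < 272 →
        code t iv m = (t a b a a).val → code t iv n = (t b a b b).val →
        272 * code t iv u + u = 272 * b.val + m → 272 * code t iv v + v = 272 * a.val + n →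
        False := by
      intro a b m n hab hm hn h1 h2 h3 h4
      have h5 : u = m := by omega
      have h6 : v = n := by omega
      subst h5 h6
      refine hcl a b hab ⟨Fin.ext ?_, Fin.ext ?_⟩
      · rw [← h1, Fin.val_castSucc]; omega
      · rw [← h2, Fin.val_castSucc]; omega
    match j with
    | 0 => exact key 0 1 16 69 (by decide) (by decide) (by decide) rfl rfl hu' hv'
    | 1 => exact key 0 2 32 138 (by decide) (by decide) (by decide) rfl rfl hu' hv'
    | 2 => exact key 0 3 48 207 (by decide) (by decide) (by decide) rfl rfl hu' hv'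
    | 3 => exact key 1 2 101 154 (by decide) (by decide) (by decide) rfl rfl hu' hv'
    | 4 => exact key 1 3 117 223 (by decide) (by decide) (by decide) rfl rfl hu' hv'
    | (j + 5) => exact key 2 3 186 239 (by decide) (by decide) (by decide) rfl rfl hu' hv'
  refine no_good hg (S0_ok hlt ?_ ?_ ?_ ?_ ?_ ?_)
  · exact congrArg Fin.val (hc 0)
  · exact congrArg Fin.val (hc 1)
  · exact congrArg Fin.val (hc 2)
  · exact congrArg Fin.val (hc 3)
  · exact congrArg Fin.val h01
  · exact congrArg Fin.val h10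

theorem exists_perm4 : ∀ a b : Fin 4, a ≠ b → ∃ σ : Equiv.Perm (Fin 4), σ 0 = a ∧ σ 1 = b := by
  decide +kernel

theorem exists_perm5 (g : Fin 4 → Fin 5) (hg : Function.Injective g) :
    ∃ τ : Equiv.Perm (Fin 5), ∀ a, τ (g a) = a.castSucc := by
  classical
  have h1 : Function.Injective (fun a : Fin 4 => a.castSucc) := Fin.castSucc_injective 4
  let e : {x // x ∈ Set.range g} ≃ {x // x ∈ Set.range (fun a : Fin 4 => a.castSucc)} :=
    (Equiv.ofInjective g hg).symm.trans (Equiv.ofInjective _ h1)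
  refine ⟨e.extendSubtype, fun a => ?_⟩
  rw [Equiv.extendSubtype_apply_of_mem e (g a) ⟨a, rfl⟩]
  have h2 : (Equiv.ofInjective g hg).symm ⟨g a, ⟨a, rfl⟩⟩ = a :=
    (Equiv.ofInjective g hg).symm_apply_apply a
  simp only [e, Equiv.trans_apply, h2]
  rfl

theorem const_inj {t : Fin 4 → Fin 4 → Fin 4 → Fin 4 → Fin 5} {iv : Fin 4 → Fin 4 → Fin 5}
    (hp : Proper t iv) : Function.Injective (fun a => t a a a a) := by
  intro a b hab
  by_contra hne
  exact hp.tt a a a a b b b b ⟨hne, hne, Or.inl hne⟩ hne hne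
    (Or.inl ⟨Ne.symm hne, Ne.symm hne, Ne.symm hne, Ne.symm hne⟩) hab

theorem out_map {a e a' e' : Fin 4} {σ : Equiv.Perm (Fin 4)} (h : Out a e a' e') :
    Out (σ a) (σ e) (σ a') (σ e') := by
  obtain ⟨h1, h2, h3⟩ := h
  exact ⟨σ.injective.ne h1, σ.injective.ne h2, h3.imp σ.injective.ne σ.injective.ne⟩

/-- The local lemma. -/
theorem local_lemma (t : Fin 4 → Fin 4 → Fin 4 → Fin 4 → Fin 5) (iv : Fin 4 → Fin 4 → Fin 5)
    (hp : Proper t iv) (h : ∃ a b : Fin 4, a ≠ b ∧ iv a b = t b b b b ∧ iv b a = t a a a a) :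
    ∃ a b : Fin 4, a ≠ b ∧ t a b a a = t b b b b ∧ t b a b b = t a a a a := by
  obtain ⟨a₀, b₀, hab, h1, h2⟩ := h
  obtain ⟨σ, hσ0, hσ1⟩ := exists_perm4 a₀ b₀ hab
  obtain ⟨τ, hτ⟩ := exists_perm5 (fun a => t (σ a) (σ a) (σ a) (σ a))
    ((const_inj hp).comp σ.injective)
  have hp' : Proper (fun a e x y => τ (t (σ a) (σ e) (σ x) (σ y)))
      (fun a e => τ (iv (σ a) (σ e))) := by
    refine ⟨?_, ?_, ?_⟩
    · intro a e x y a' e' x' y' ho h3 h4 h5 hcon
      refine hp.tt _ _ _ _ _ _ _ _ (out_map (σ := σ) ho) (σ.injective.ne h3) (σ.injective.ne h4) ?_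
        (τ.injective hcon)
      rcases h5 with ⟨h5, h6, h7, h8⟩ | ⟨h5, h6, h7, h8⟩
      · exact Or.inl ⟨σ.injective.ne h5, σ.injective.ne h6, σ.injective.ne h7, σ.injective.ne h8⟩
      · exact Or.inr ⟨σ.injective.ne h5, σ.injective.ne h6, σ.injective.ne h7, σ.injective.ne h8⟩
    · intro a e a' e' x' y' ho h3 h4 h5 h6 hcon
      exact hp.it _ _ _ _ _ _ (out_map (σ := σ) ho) (σ.injective.ne h3) (σ.injective.ne h4)
        (σ.injective.ne h5) (σ.injective.ne h6) (τ.injective hcon)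
    · intro a e a' e' ho hcon
      exact hp.ii _ _ _ _ (out_map (σ := σ) ho) (τ.injective hcon)
  obtain ⟨a, b, hne, h3, h4⟩ := local_norm _ _ hp' hτ (by
      rw [hσ0, hσ1, h1, ← hσ1]
      exact hτ 1) (by
      rw [hσ0, hσ1, h2, ← hσ0]
      exact hτ 0)
  refine ⟨σ a, σ b, σ.injective.ne hne, τ.injective ?_, τ.injective ?_⟩
  · exact h3.trans (hτ b).symm
  · exact h4.trans (hτ a).symm

theorem preserved45 : Preserved 4 5 := by
  refine ⟨fun κ iv => ∃ a b : Fin 4, a ≠ b ∧ iv a b = κ b ∧ iv b a = κ a, ?_, ?_, ?_⟩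
  · intro κ _
    exact ⟨0, 1, by decide, rfl, rfl⟩
  · rintro κ hκ ⟨a, b, hab, h, _⟩
    exact hab (hκ h)
  · intro t iv hp h
    exact local_lemma t iv hp h

end Run7.h494.Fin5
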