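import Pool.Agent.Run7.h494.Local
import Pool.Agent.Helper325.BorsukUlam

/-!
# Finite graphs with pieces and large chromatic number

The vertices are a fine net of the surface of the cross polytope, and two of them are adjacent
when they are nearly antipodal.
-/

set_option autoImplicit false

namespace Run7.h494

open SimpleGraph Pool.Agent.Helper325.BorsukUlam

/-- nearly antipodal points of a set -/
def antiG {n : ℕ} (T : Set (Fin n → ℝ)) (δ : ℝ) : SimpleGraph T where
  Adj p q := p ≠ q ∧ ∀ j, |p.1 j + q.1 j| < δ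
  symm := ⟨fun p q h => ⟨h.1.symm, fun j => by rw [add_comm]; exact h.2 j⟩⟩
  loopless := ⟨fun _ h => h.1 rfl⟩

theorem exists_large_coord {m : ℕ} {v : Fin (m + 1) → ℝ} (hv : v ∈ K m) :
    ∃ j, 1 / ((m : ℝ) + 1) ≤ |v j| := by
  by_contra hcon
  push Not at hcon
  have h1 : ∑ i, |v i| < ∑ _i : Fin (m + 1), (1 / ((m : ℝ) + 1)) :=
    Finset.sum_lt_sum_of_nonempty Finset.univ_nonempty (fun i _ => hcon i)
  have h2 : ∑ _i : Fin (m + 1), (1 / ((m : ℝ) + 1)) = 1 := by
    rw [Finset.sum_const, Finset.card_univ, Fintype.card_fin, nsmul_eq_mul]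
    push_cast
    field_simp
  have h3 : ∑ i, |v i| = 1 := hv
  linarith

/-- the pieces -/
noncomputable def antiPieces {m M : ℕ} (T : Set (Fin (m + 1) → ℝ)) (hT : T ⊆ K m) (δ : ℝ)
    (hδ : δ = 1 / (((m : ℝ) + 1) * ((M : ℝ) + 2))) : Pieces (antiG T δ) (m + 1) M where
  P j r v := δ * ((M : ℝ) + 1 - r) < v.1 j
  N j r v := δ * ((M : ℝ) + 1 - r) < - v.1 j
  same_P := by
    intro j r r' u v hr hr' huv h1 h2
    have hpos : 0 < δ := by rw [hδ]; positivity
    have h3 := huv.2 j
    rw [abs_lt] at h3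
    have hr1 : (r : ℝ) ≤ M := by exact_mod_cast hr
    have hr2 : (r' : ℝ) ≤ M := by exact_mod_cast hr'
    nlinarith [mul_nonneg hpos.le (sub_nonneg.2 hr1), mul_nonneg hpos.le (sub_nonneg.2 hr2)]
  same_N := by
    intro j r r' u v hr hr' huv h1 h2
    have hpos : 0 < δ := by rw [hδ]; positivity
    have h3 := huv.2 j
    rw [abs_lt] at h3
    have hr1 : (r : ℝ) ≤ M := by exact_mod_cast hr
    have hr2 : (r' : ℝ) ≤ M := by exact_mod_cast hr'
    nlinarith [mul_nonneg hpos.le (sub_nonneg.2 hr1), mul_nonneg hpos.le (sub_nonneg.2 hr2)]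
  PN := by
    intro j r r' u v hrr hr' huv h1
    have hpos : 0 < δ := by rw [hδ]; positivity
    have h3 := huv.2 j
    rw [abs_lt] at h3
    have hr1 : (r : ℝ) + 1 ≤ r' := by exact_mod_cast hrr
    nlinarith [mul_nonneg hpos.le (sub_nonneg.2 hr1)]
  NP := by
    intro j r r' u v hrr hr' huv h1
    have hpos : 0 < δ := by rw [hδ]; positivity
    have h3 := huv.2 j
    rw [abs_lt] at h3
    have hr1 : (r : ℝ) + 1 ≤ r' := by exact_mod_cast hrr
    nlinarith [mul_nonneg hpos.le (sub_nonneg.2 hr1)]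
  cover := by
    intro r v hr
    have hpos : 0 < δ := by rw [hδ]; positivity
    obtain ⟨j, hj⟩ := exists_large_coord (hT v.2)
    have h1 : δ * ((M : ℝ) + 2) = 1 / ((m : ℝ) + 1) := by
      rw [hδ]; field_simp
    have h2 : δ * ((M : ℝ) + 1 - (r j : ℝ)) < |v.1 j| := by
      have h3 : (0 : ℝ) ≤ (r j : ℝ) := Nat.cast_nonneg _
      nlinarith [mul_nonneg hpos.le h3]
    refine ⟨j, ?_⟩
    rcases lt_abs.1 h2 with h | h
    · exact Or.inl h
    · exact Or.inr h

theorem isCompact_K (m : ℕ) : IsCompact (K m) := by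
  apply Metric.isCompact_of_isClosed_isBounded
  · have hc : Continuous fun x : Fin (m + 1) → ℝ => ∑ i, |x i| := by fun_prop
    exact isClosed_eq hc continuous_const
  · refine Metric.isBounded_closedBall (x := (0 : Fin (m + 1) → ℝ)) (r := 1) |>.subset ?_
    intro x hx
    rw [mem_closedBall_zero_iff, pi_norm_le_iff_of_nonneg zero_le_one]
    intro i
    have h1 : ∑ i, |x i| = 1 := hx
    rw [Real.norm_eq_abs, ← h1]
    exact Finset.single_le_sum (f := fun i => |x i|) (fun i _ => abs_nonneg _) (Finset.mem_univ i)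

theorem neg_mem_K {m : ℕ} {x : Fin (m + 1) → ℝ} (hx : x ∈ K m) : -x ∈ K m := by
  have h1 : ∑ i, |x i| = 1 := hx
  change ∑ i, |(-x) i| = 1
  simpa using h1

theorem not_colorable_anti {m : ℕ} (T : Set (Fin (m + 1) → ℝ)) (hT : T ⊆ K m) (δ : ℝ)
    (hδ : 0 < δ) (hδ1 : δ < 1 / ((m : ℝ) + 1))
    (hcov : ∀ x ∈ K m, ∃ p ∈ T, dist x p < δ / 4) : ¬ (antiG T δ).Colorable (m + 1) := by
  rintro ⟨C⟩
  -- near points of u and -u are adjacent
  have hadj : ∀ (u : Fin (m + 1) → ℝ) (p q : T), dist u p.1 < δ / 4 → dist (-u) q.1 < δ / 4 →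
      (antiG T δ).Adj p q := by
    intro u p q h1 h2
    have h3 : ∀ j, |p.1 j + q.1 j| < δ := by
      intro j
      have h4 : |u j - p.1 j| < δ / 4 := by
        have := dist_le_pi_dist u p.1 j
        rw [Real.dist_eq] at this
        linarith
      have h5 : |(-u) j - q.1 j| < δ / 4 := by
        have := dist_le_pi_dist (-u) q.1 j
        rw [Real.dist_eq] at this
        linarith
      rw [Pi.neg_apply] at h5
      rw [abs_lt] at h4 h5 ⊢
      constructor <;> linarith
    refine ⟨?_, h3⟩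
    rintro rfl
    obtain ⟨j, hj⟩ := exists_large_coord (hT p.2)
    have h4 := h3 j
    rw [← two_mul, abs_mul, abs_two] at h4
    linarith
  let Sc : Fin (m + 1) → Set (Fin (m + 1) → ℝ) := fun i => {x | ∃ p : T, C p = i ∧ p.1 = x}
  let f : (Fin (m + 1) → ℝ) → (Fin m → ℝ) := fun u i =>
    Metric.infDist u (Sc i.castSucc) - Metric.infDist (-u) (Sc i.castSucc)
  have hf : Continuous f := by
    apply continuous_pi
    intro i
    exact (Metric.continuous_infDist_pt _).sub
      ((Metric.continuous_infDist_pt _).comp continuous_neg)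
  have hodd : ∀ x, f (-x) = -f x := by
    intro x
    funext i
    simp only [f, neg_neg, Pi.neg_apply, neg_sub]
  obtain ⟨u, hu, hfu⟩ := borsuk_ulam m f hf hodd
  have hzero : ∀ i : Fin m, Metric.infDist u (Sc i.castSucc) =
      Metric.infDist (-u) (Sc i.castSucc) := by
    intro i
    have := congrFun hfu i
    simp only [f, Pi.zero_apply] at this
    linarith
  obtain ⟨p, hpT, hp⟩ := hcov u hu
  obtain ⟨q, hqT, hq⟩ := hcov (-u) (neg_mem_K hu)
  -- the colour of `p` is the last one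
  have hlast1 : C ⟨p, hpT⟩ = Fin.last m := by
    by_contra hne
    obtain ⟨i, hi⟩ := Fin.exists_castSucc_eq.2 hne
    have h1 : Metric.infDist u (Sc i.castSucc) < δ / 4 :=
      lt_of_le_of_lt (Metric.infDist_le_dist_of_mem ⟨⟨p, hpT⟩, hi.symm, rfl⟩) hp
    rw [hzero i] at h1
    have hne' : (Sc i.castSucc).Nonempty := ⟨p, ⟨p, hpT⟩, hi.symm, rfl⟩
    obtain ⟨y, ⟨p', hp', rfl⟩, hy⟩ := (Metric.infDist_lt_iff hne').1 h1
    exact C.valid (hadj u ⟨p, hpT⟩ p' hp hy) (hi.symm.trans hp'.symm)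
  have hlast2 : C ⟨q, hqT⟩ = Fin.last m := by
    by_contra hne
    obtain ⟨i, hi⟩ := Fin.exists_castSucc_eq.2 hne
    have h1 : Metric.infDist (-u) (Sc i.castSucc) < δ / 4 :=
      lt_of_le_of_lt (Metric.infDist_le_dist_of_mem ⟨⟨q, hqT⟩, hi.symm, rfl⟩) hq
    rw [← hzero i] at h1
    have hne' : (Sc i.castSucc).Nonempty := ⟨q, ⟨q, hqT⟩, hi.symm, rfl⟩
    obtain ⟨y, ⟨p', hp', rfl⟩, hy⟩ := (Metric.infDist_lt_iff hne').1 h1
    exact C.valid (hadj u p' ⟨q, hqT⟩ hy hq) (hp'.trans hi)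
  exact C.valid (hadj u ⟨p, hpT⟩ ⟨q, hqT⟩ hp hq) (hlast1.trans hlast2.symm)

/-- For every number of scales there is a finite graph with pieces which is not colourable with
`m + 1` colours. -/
theorem exists_graph (m M : ℕ) : ∃ (V : Type) (_ : Fintype V) (G : SimpleGraph V)
    (_ : Pieces G (m + 1) M), ¬ G.Colorable (m + 1) := by
  let δ : ℝ := 1 / (((m : ℝ) + 1) * ((M : ℝ) + 2))
  have hδ : 0 < δ := by positivity
  have hδ1 : δ < 1 / ((m : ℝ) + 1) := by
    apply one_div_lt_one_div_of_lt (by positivity)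
    have h1 : (0 : ℝ) < (m : ℝ) + 1 := by positivity
    have h2 : (0 : ℝ) ≤ M := Nat.cast_nonneg _
    nlinarith
  obtain ⟨T, hTK, hTf, hcov⟩ := (isCompact_K m).finite_cover_balls (e := δ / 4) (by positivity)
  have hcov' : ∀ x ∈ K m, ∃ p ∈ T, dist x p < δ / 4 := by
    intro x hx
    have := hcov hx
    simp only [Set.mem_iUnion, Metric.mem_ball, exists_prop] at this
    exact this
  have := hTf.fintype
  exact ⟨T, inferInstance, antiG T δ, antiPieces T hTK δ rfl,
    not_colorable_anti T hTK δ hδ hδ1 hcov'⟩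

theorem le_chrom_of_not {V : Type} {G : SimpleGraph V} {n : ℕ} (h : ¬ G.Colorable n) :
    ((n + 1 : ℕ) : ℕ∞) ≤ G.chromaticNumber := by
  rw [le_chromaticNumber_iff_colorable]
  intro m hm
  by_contra hlt
  push Not at hlt
  have : m < n + 1 := by exact_mod_cast hlt
  exact h (hm.mono (by omega))

/-- The main statement with `c` letters and `d` colours. -/
theorem pair_of_preserved {c d : ℕ} (hP : Preserved c d) (n : ℕ) :
    ∃ (V W : Type) (_ : Fintype V) (_ : Fintype W) (G : SimpleGraph V) (H : SimpleGraph W),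
      ((d + 1 : ℕ) : ℕ∞) ≤ G.chromaticNumber ∧ (n : ℕ∞) ≤ H.chromaticNumber ∧
      (tprod G H).Colorable c := by
  classical
  obtain ⟨M, hM⟩ := exp_not_colorable hP ((n + c) + 1)
  obtain ⟨W, iW, H, S, hH⟩ := exists_graph (n + c) M
  refine ⟨W → Fin c, W, inferInstance, iW, expG H c, H, ?_, ?_, tprod_exp_colorable H c⟩
  · exact le_chrom_of_not (hM W H S (fun h => hH (h.mono (by omega))))
  · refine le_trans ?_ (le_chrom_of_not hH)
    exact_mod_cast (by omega : n ≤ n + c + 1 + 1)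

end Run7.h494
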