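import Pool.Agent.Run7.h494.Dich

/-!
# Exponential graphs of graphs with pieces

A graph with `s` coordinates and scales `0, …, M`: for each coordinate and scale there is a
positive and a negative piece of the vertex set.  A colouring of the exponential graph gives, after
a Ramsey argument, colourings of finite patterns at every stage.
-/

set_option autoImplicit false

namespace Run7.h494

open SimpleGraph

/-! ### The Ramsey argument -/

/-- In every finite colouring of a large grid there is a monochromatic box. -/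
theorem exists_box (s : ℕ) (K : Type) [Finite K] : ∃ M : ℕ, ∀ D : (Fin s → ℕ) → K,
    ∃ lo hi : Fin s → ℕ, (∀ j, lo j < hi j) ∧ (∀ j, hi j ≤ M) ∧
      ∀ x : Fin s → Bool, D (fun j => if x j = true then hi j else lo j) = D lo := by
  classical
  obtain ⟨ι, iι, h⟩ := Combinatorics.Line.exists_mono_in_high_dimension (Fin s → Bool) K
  refine ⟨Fintype.card ι, fun D => ?_⟩
  let cnt : (ι → Fin s → Bool) → Fin s → ℕ :=
    fun w j => (Finset.univ.filter (fun i => w i j = true)).card
  obtain ⟨l, c, hl⟩ := h (fun w => D (cnt w))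
  have key : ∀ (x : Fin s → Bool), (fun j => if x j = true then cnt (l (fun _ => true)) j else
      cnt (l (fun _ => false)) j) = cnt (l x) := by
    intro x
    funext j
    by_cases hx : x j = true
    · rw [if_pos hx]
      apply congrArg Finset.card
      apply Finset.filter_congr
      intro i _
      simp only [Combinatorics.Line.coe_apply]
      cases hi : l.idxFun i with
      | none => simp [hx]
      | some y => simp
    · rw [if_neg hx]
      apply congrArg Finset.card
      apply Finset.filter_congr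
      intro i _
      simp only [Combinatorics.Line.coe_apply]
      have hx' : x j = false := by simpa using hx
      cases hi : l.idxFun i with
      | none => simp [hx']
      | some y => simp
  refine ⟨cnt (l (fun _ => false)), cnt (l (fun _ => true)), ?_, ?_, ?_⟩
  · intro j
    apply Finset.card_lt_card
    rw [Finset.ssubset_iff_of_subset]
    · obtain ⟨i, hi⟩ := l.proper
      refine ⟨i, ?_, ?_⟩
      · rw [Finset.mem_filter, Combinatorics.Line.coe_apply, hi]
        simp
      · rw [Finset.mem_filter, Combinatorics.Line.coe_apply, hi]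
        simp
    · intro i hi
      rw [Finset.mem_filter, Combinatorics.Line.coe_apply] at hi
      rw [Finset.mem_filter, Combinatorics.Line.coe_apply]
      cases hi' : l.idxFun i with
      | none => simp
      | some y => rw [hi'] at hi; simpa using hi
  · intro j
    exact Finset.card_le_univ _
  · intro x
    rw [key x]
    exact (hl x).trans (hl _).symm

/-! ### Exponential graphs -/

/-- The exponential graph of `G` with `c` letters, without its loops. -/
def expG {V : Type} (G : SimpleGraph V) (c : ℕ) : SimpleGraph (V → Fin c) where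
  Adj φ ψ := φ ≠ ψ ∧ ∀ u v, G.Adj u v → φ u ≠ ψ v
  symm := ⟨fun _ _ h => ⟨h.1.symm, fun u v huv => (h.2 v u huv.symm).symm⟩⟩
  loopless := ⟨fun _ h => h.1 rfl⟩

theorem tprod_exp_colorable {V : Type} (G : SimpleGraph V) (c : ℕ) :
    (tprod (expG G c) G).Colorable c := by
  refine ⟨Coloring.mk (fun p => p.1 p.2) ?_⟩
  intro p q hpq
  rw [tprod_adj] at hpq
  exact hpq.1.2 _ _ hpq.2

theorem exp_ne {V : Type} {G : SimpleGraph V} {c : ℕ} (hG : ¬ G.Colorable c) {K : Type}
    (C : (expG G c).Coloring K) {φ ψ : V → Fin c} (h : ∀ u v, G.Adj u v → φ u ≠ ψ v) :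
    C φ ≠ C ψ := by
  by_cases hφ : φ = ψ
  · exfalso
    subst hφ
    exact hG ⟨Coloring.mk φ (fun {u v} huv => h u v huv)⟩
  · exact C.valid ⟨hφ, h⟩

/-! ### Pieces -/

/-- A system of pieces. -/
structure Pieces {V : Type} (G : SimpleGraph V) (s M : ℕ) where
  P : Fin s → ℕ → V → Prop
  N : Fin s → ℕ → V → Prop
  same_P : ∀ j r r' u v, r ≤ M → r' ≤ M → G.Adj u v → P j r u → ¬ P j r' v
  same_N : ∀ j r r' u v, r ≤ M → r' ≤ M → G.Adj u v → N j r u → ¬ N j r' v
  PN : ∀ j r r' u v, r < r' → r' ≤ M → G.Adj u v → P j r u → N j r' v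
  NP : ∀ j r r' u v, r < r' → r' ≤ M → G.Adj u v → N j r u → P j r' v
  cover : ∀ (r : Fin s → ℕ) (v : V), (∀ j, r j ≤ M) → ∃ j, P j (r j) v ∨ N j (r j) v

section

variable {V : Type} {G : SimpleGraph V} {s M : ℕ} (S : Pieces G s M) {c : ℕ}

/-- the union of the pieces with index below `i` -/
def Pieces.inA (i : ℕ) (r : Fin s → ℕ) (v : V) : Prop :=
  ∃ j : Fin s, j.val < i ∧ (S.P j (r j) v ∨ S.N j (r j) v)

open Classical in
/-- letter `a` on the pieces with index below `i` and `b` elsewhere -/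
noncomputable def Pieces.inv (i : ℕ) (a b : Fin c) (r : Fin s → ℕ) (v : V) : Fin c :=
  if S.inA i r v then a else b

open Classical in
/-- letter `x` on the positive piece of index `i`, letter `y` on the negative one, and `inv`
elsewhere -/
noncomputable def Pieces.tf (i : Fin s) (a e x y : Fin c) (r : Fin s → ℕ) (v : V) : Fin c :=
  if S.P i (r i) v then x else if S.N i (r i) v then y else S.inv i.val a e r v

theorem Pieces.inv_zero (a b : Fin c) (r : Fin s → ℕ) : S.inv 0 a b r = fun _ => b := by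
  funext v
  unfold Pieces.inv
  rw [if_neg]
  rintro ⟨j, hj, _⟩
  exact absurd hj (Nat.not_lt_zero _)

theorem Pieces.inv_last (a b : Fin c) (r : Fin s → ℕ) (hr : ∀ j, r j ≤ M) :
    S.inv s a b r = fun _ => a := by
  funext v
  unfold Pieces.inv
  rw [if_pos]
  obtain ⟨j, hj⟩ := S.cover r v hr
  exact ⟨j, j.isLt, hj⟩

theorem Pieces.inv_succ (i : Fin s) (a b : Fin c) (r : Fin s → ℕ) :
    S.inv (i.val + 1) a b r = S.tf i a b a a r := by
  funext v
  unfold Pieces.tf Pieces.inv
  by_cases h1 : S.P i (r i) v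
  · rw [if_pos h1, if_pos]
    exact ⟨i, Nat.lt_succ_self _, Or.inl h1⟩
  · rw [if_neg h1]
    by_cases h2 : S.N i (r i) v
    · rw [if_pos h2, if_pos]
      exact ⟨i, Nat.lt_succ_self _, Or.inr h2⟩
    · rw [if_neg h2]
      have hA : S.inA (i.val + 1) r v ↔ S.inA i.val r v := by
        constructor
        · rintro ⟨j, hj, hj'⟩
          rcases Nat.lt_succ_iff_lt_or_eq.1 hj with hj | hj
          · exact ⟨j, hj, hj'⟩
          · have : j = i := Fin.ext hj
            subst this
            rcases hj' with hj' | hj'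
            · exact absurd hj' h1
            · exact absurd hj' h2
        · rintro ⟨j, hj, hj'⟩
          exact ⟨j, Nat.lt_succ_of_lt hj, hj'⟩
      by_cases h3 : S.inA i.val r v
      · rw [if_pos h3, if_pos (hA.2 h3)]
      · rw [if_neg h3, if_neg (fun h => h3 (hA.1 h))]

theorem Pieces.tf_const (i : Fin s) (a : Fin c) (r : Fin s → ℕ) :
    S.tf i a a a a r = fun _ => a := by
  funext v
  unfold Pieces.tf Pieces.inv
  split_ifs <;> rfl

/-- the outer parts of two functions are compatible -/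
theorem Pieces.outer_ok {i : ℕ} {a e a' e' : Fin c} {r r' : Fin s → ℕ}
    (hr : ∀ j, r j ≤ M) (hr' : ∀ j, r' j ≤ M) (haa : a ≠ a') (hee : e ≠ e')
    (h : ((∀ j : Fin s, j.val < i → r j < r' j) ∧ e ≠ a') ∨
      ((∀ j : Fin s, j.val < i → r' j < r j) ∧ a ≠ e'))
    {u v : V} (huv : G.Adj u v) : S.inv i a e r u ≠ S.inv i a' e' r' v := by
  unfold Pieces.inv
  by_cases h1 : S.inA i r u <;> by_cases h2 : S.inA i r' v
  · rw [if_pos h1, if_pos h2]; exact haa
  · rw [if_pos h1, if_neg h2]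
    rcases h with ⟨h, _⟩ | ⟨_, h⟩
    · exfalso
      obtain ⟨j, hj, hj'⟩ := h1
      refine h2 ⟨j, hj, ?_⟩
      rcases hj' with hj' | hj'
      · exact Or.inr (S.PN j _ _ u v (h j hj) (hr' j) huv hj')
      · exact Or.inl (S.NP j _ _ u v (h j hj) (hr' j) huv hj')
    · exact h
  · rw [if_neg h1, if_pos h2]
    rcases h with ⟨_, h⟩ | ⟨h, _⟩
    · exact h
    · exfalso
      obtain ⟨j, hj, hj'⟩ := h2
      refine h1 ⟨j, hj, ?_⟩
      rcases hj' with hj' | hj'
      · exact Or.inr (S.PN j _ _ v u (h j hj) (hr j) huv.symm hj')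
      · exact Or.inl (S.NP j _ _ v u (h j hj) (hr j) huv.symm hj')
  · rw [if_neg h1, if_neg h2]; exact hee

theorem Pieces.inv_mem (i : ℕ) (a b : Fin c) (r : Fin s → ℕ) (v : V) :
    S.inv i a b r v = a ∨ S.inv i a b r v = b := by
  unfold Pieces.inv
  split_ifs
  · exact Or.inl rfl
  · exact Or.inr rfl

theorem Pieces.inv_tf {i : Fin s} {a e a' e' x' y' : Fin c} {r r' : Fin s → ℕ}
    (hr : ∀ j, r j ≤ M) (hr' : ∀ j, r' j ≤ M) (haa : a ≠ a') (hee : e ≠ e')
    (h : ((∀ j : Fin s, j.val < i.val → r j < r' j) ∧ e ≠ a') ∨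
      ((∀ j : Fin s, j.val < i.val → r' j < r j) ∧ a ≠ e'))
    (hx1 : x' ≠ a) (hx2 : x' ≠ e) (hy1 : y' ≠ a) (hy2 : y' ≠ e)
    {u v : V} (huv : G.Adj u v) : S.inv i.val a e r u ≠ S.tf i a' e' x' y' r' v := by
  unfold Pieces.tf
  by_cases h1 : S.P i (r' i) v
  · rw [if_pos h1]
    rcases S.inv_mem i.val a e r u with h2 | h2
    · rw [h2]; exact hx1.symm
    · rw [h2]; exact hx2.symm
  · rw [if_neg h1]
    by_cases h3 : S.N i (r' i) v
    · rw [if_pos h3]
      rcases S.inv_mem i.val a e r u with h2 | h2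
      · rw [h2]; exact hy1.symm
      · rw [h2]; exact hy2.symm
    · rw [if_neg h3]
      exact S.outer_ok hr hr' haa hee h huv

theorem Pieces.tf_tf_aux {i : Fin s} {a e x y a' e' x' y' : Fin c} {r r' : Fin s → ℕ}
    (hr : ∀ j, r j ≤ M) (hr' : ∀ j, r' j ≤ M) (haa : a ≠ a') (hee : e ≠ e')
    (h : ((∀ j : Fin s, j.val < i.val → r j < r' j) ∧ e ≠ a') ∨
      ((∀ j : Fin s, j.val < i.val → r' j < r j) ∧ a ≠ e'))
    (hi : r i < r' i) (hxy : x ≠ y') (hyx : y ≠ x')
    (hx1 : x' ≠ a) (hx2 : x' ≠ e) (hy1 : y' ≠ a) (hy2 : y' ≠ e)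
    {u v : V} (huv : G.Adj u v) : S.tf i a e x y r u ≠ S.tf i a' e' x' y' r' v := by
  by_cases h1 : S.P i (r i) u
  · have h2 : S.N i (r' i) v := S.PN i _ _ u v hi (hr' i) huv h1
    have h3 : ¬ S.P i (r' i) v := S.same_P i _ _ u v (hr i) (hr' i) huv h1
    unfold Pieces.tf
    rw [if_pos h1, if_neg h3, if_pos h2]
    exact hxy
  · by_cases h4 : S.N i (r i) u
    · have h2 : S.P i (r' i) v := S.NP i _ _ u v hi (hr' i) huv h4
      unfold Pieces.tf
      rw [if_neg h1, if_pos h4, if_pos h2]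
      exact hyx
    · have h5 : S.tf i a e x y r u = S.inv i.val a e r u := by
        unfold Pieces.tf
        rw [if_neg h1, if_neg h4]
      rw [h5]
      exact S.inv_tf hr hr' haa hee h hx1 hx2 hy1 hy2 huv

theorem Pieces.tf_tf {i : Fin s} {a e x y a' e' x' y' : Fin c} {r r' : Fin s → ℕ}
    (hr : ∀ j, r j ≤ M) (hr' : ∀ j, r' j ≤ M) (haa : a ≠ a') (hee : e ≠ e')
    (h : ((∀ j : Fin s, j.val < i.val → r j < r' j) ∧ e ≠ a') ∨
      ((∀ j : Fin s, j.val < i.val → r' j < r j) ∧ a ≠ e'))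
    (hxy : x ≠ y') (hyx : y ≠ x')
    (hi : (r i < r' i ∧ (y' ≠ a ∧ y' ≠ e ∧ x' ≠ a ∧ x' ≠ e)) ∨
      (r' i < r i ∧ (x ≠ a' ∧ x ≠ e' ∧ y ≠ a' ∧ y ≠ e')))
    {u v : V} (huv : G.Adj u v) : S.tf i a e x y r u ≠ S.tf i a' e' x' y' r' v := by
  rcases hi with ⟨hi, hy1, hy2, hx1, hx2⟩ | ⟨hi, hx1, hx2, hy1, hy2⟩
  · exact S.tf_tf_aux hr hr' haa hee h hi hxy hyx hx1 hx2 hy1 hy2 huv
  · have h' : ((∀ j : Fin s, j.val < i.val → r' j < r j) ∧ e' ≠ a) ∨
        ((∀ j : Fin s, j.val < i.val → r j < r' j) ∧ a' ≠ e) := by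
      rcases h with ⟨h1, h2⟩ | ⟨h1, h2⟩
      · exact Or.inr ⟨h1, h2.symm⟩
      · exact Or.inl ⟨h1, h2.symm⟩
    exact (S.tf_tf_aux hr' hr haa.symm hee.symm h' hi hyx.symm hxy.symm hx1 hx2 hy1 hy2
      huv.symm).symm

end

end Run7.h494
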